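import Pool.Agent.Y803.GR.Fin

/-!
MP_2e8808_al: the Jacobson radical of the group algebra of the first Grigorchuk group is zero, over
every field; in particular over the field with two elements it is not the augmentation ideal.

Idea.  Let `x` be a nonzero element of the radical `J` of `k[G]`, with `1` in its support `S`.  For
each `1 ≠ g ∈ S` choose a vertex `v` of the tree with `g v ≠ v`, so that all the images of these
vertices under `S⁻¹` are different.  The operators `x ↦ x - y x (g⁻¹ y⁻¹ g)` with `y` in the rigid
stabiliser of `v` preserve `J` and kill the term `g`; combining them one replaces the
coefficient of `1` by its product with any sum of elements `[a, y] - 1` with `a, y` in the rigid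
stabiliser, for instance by its product with an element which acts on a subtree as `(b + ad)^2 - 4`
and is not nilpotent.  In the end `J` contains a non-nilpotent element `w` of `k[H]`, where `H`
is the rigid stabiliser of some vertices.  The rigid stabiliser `H'` of another vertex commutes
with `H`, and `k[H']` contains a transcendental element `y`.  If `w` is transcendental too, there is
a functional `θ` on `k[G]` with values in `k(t)`, `θ(1) = 1`, which turns the multiplications by `w`
and `y` into those by `t` and `1/t`; it kills the right ideal generated by `1 - w y`, so that
`1 - w y` is not invertible although `w y ∈ J`.  And a non-nilpotent element of `J` is transcendental.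
-/

set_option autoImplicit false

namespace Pool.Agent.Results.MP_2e8808_al.RadicalZero

open Pool.Agent.Y803.GR Pool.Agent.Results.MP_2e8808_al

universe u

/-- Let `Grig = ⟨a, b, c, d⟩` be the first Grigorchuk group.
(1) For every field `k` the Jacobson radical of `k[Grig]` (the intersection of the maximal left
ideals) is zero.
(2) The Jacobson radical of `F_2[Grig]` is different from the augmentation ideal, the kernel of the
algebra map `F_2[Grig] → F_2` which sends all group elements to `1`. -/
theorem result :
    (∀ (k : Type u) [Field k],
      Ideal.jacobson (⊥ : Ideal (MonoidAlgebra k GrigorchukJacobson.Grig)) = ⊥) ∧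
    Ideal.jacobson (⊥ : Ideal (MonoidAlgebra (ZMod 2) GrigorchukJacobson.Grig)) ≠
      RingHom.ker GrigorchukJacobson.aug := by
  refine ⟨fun k _ => jacobson_Grig k, ?_⟩
  intro h
  obtain ⟨x, hx, hxJ⟩ := GrigorchukJacobson.result
  apply hxJ
  rw [h, RingHom.mem_ker]
  exact hx

end Pool.Agent.Results.MP_2e8808_al.RadicalZero
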